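import Pool.Agent.H38.BR.S8.H646.Tuples

/-!
# Sieve bounds for patterns of primes extended by a progression
-/

set_option autoImplicit false

namespace Pool.Agent.H38.BR

open Finset Filter Pool.Agent.H646 Pool.Agent.H646.TuplesM

/-- the pairs of a set -/
def prs (T : Finset ℕ) : Finset (ℕ × ℕ) := (T ×ˢ T).filter (fun q => q.1 < q.2)

theorem fin_bound {m : ℕ} (hm : 1 ≤ m) :
    ∃ C > (0 : ℝ), ∃ B x₀ : ℕ, ∀ x : ℕ, x₀ ≤ x → ∀ T : Finset ℕ, T.card = m →
      (((Icc 1 x).filter (fun n => ∀ t ∈ T, (n + t).Prime)).card : ℝ) ≤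
        C * x / (Real.log x) ^ m * (1 + ∑ q ∈ prs T, rat (q.2 - q.1) ^ B) := by
  classical
  obtain ⟨C, hC, A, x₀, hb⟩ := tuple_bound m hm
  refine ⟨C, hC, A * (m * m), x₀, fun x hx T hT => ?_⟩
  obtain ⟨d, hd⟩ : ∃ d : Fin m → ℕ, d = fun j => T.orderEmbOfFin hT j := ⟨_, rfl⟩
  have hmono : StrictMono d := by
    rw [hd]
    exact (T.orderEmbOfFin hT).strictMono
  have hmem : ∀ j, d j ∈ T := fun j => by
    rw [hd]
    exact T.orderEmbOfFin_mem hT j
  have hsurj : ∀ t ∈ T, ∃ j, d j = t := by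
    intro t ht
    have h1 : t ∈ Set.range (T.orderEmbOfFin hT) := by
      rw [T.range_orderEmbOfFin hT]
      exact ht
    obtain ⟨j, hj⟩ := h1
    exact ⟨j, by rw [hd]; exact hj⟩
  have h1 := hb x hx d hmono
  have h2 : (Icc 1 x).filter (fun n => ∀ t ∈ T, (n + t).Prime) = (Icc 1 x).filter (fun n => ∀ j, (n + d j).Prime) := by
    ext n
    rw [mem_filter, mem_filter]
    refine and_congr_right fun _ => ?_
    constructor
    · intro h j
      exact h _ (hmem j)
    · intro h t ht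
      obtain ⟨j, rfl⟩ := hsurj t ht
      exact h j
  rw [h2]
  refine h1.trans ?_
  have hlog : 0 ≤ C * x / (Real.log x) ^ m := by
    have := Real.log_natCast_nonneg x
    positivity
  refine mul_le_mul_of_nonneg_left ?_ hlog
  obtain ⟨Q, hQ⟩ : ∃ Q : Finset (Fin m × Fin m), Q = (univ : Finset (Fin m × Fin m)).filter (fun q => q.1 < q.2) := ⟨_, rfl⟩
  rw [← hQ]
  have hrat : ∀ q ∈ Q, 1 ≤ rat (d q.2 - d q.1) := by
    intro q hq
    rw [hQ, mem_filter] at hq
    have := hmono hq.2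
    exact rat_ge_one (by omega)
  have hcard : Q.card ≤ m * m := by
    rw [hQ]
    refine (card_filter_le _ _).trans ?_
    rw [card_univ, Fintype.card_prod, Fintype.card_fin]
  have hsum : ∑ q ∈ Q, rat (d q.2 - d q.1) ^ (A * (m * m)) ≤ ∑ q ∈ prs T, rat (q.2 - q.1) ^ (A * (m * m)) := by
    rw [← sum_image (s := Q) (g := fun q : Fin m × Fin m => (d q.1, d q.2)) (f := fun q : ℕ × ℕ => rat (q.2 - q.1) ^ (A * (m * m)))
      (by
        intro q _ q' _ h
        simp only [Prod.mk.injEq] at h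
        exact Prod.ext (hmono.injective h.1) (hmono.injective h.2))]
    refine sum_le_sum_of_subset_of_nonneg ?_ (fun q _ _ => pow_nonneg (rat_nonneg _) _)
    intro y hy
    obtain ⟨q, hq, rfl⟩ := mem_image.1 hy
    rw [hQ, mem_filter] at hq
    unfold prs
    rw [mem_filter, mem_product]
    exact ⟨⟨hmem _, hmem _⟩, hmono hq.2⟩
  rcases Q.eq_empty_or_nonempty with hQe | hQne
  · rw [hQe, prod_empty]
    have : 0 ≤ ∑ q ∈ prs T, rat (q.2 - q.1) ^ (A * (m * m)) := sum_nonneg fun q _ => pow_nonneg (rat_nonneg _) _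
    linarith
  · have h3 := prod_le_sum_pow Q (fun q => rat (d q.2 - d q.1) ^ A) (fun q hq => one_le_pow₀ (hrat q hq)) hQne
    have h4 : ∑ q ∈ Q, (rat (d q.2 - d q.1) ^ A) ^ Q.card ≤ ∑ q ∈ Q, rat (d q.2 - d q.1) ^ (A * (m * m)) := by
      refine sum_le_sum fun q hq => ?_
      rw [← pow_mul]
      exact pow_le_pow_right₀ (hrat q hq) (Nat.mul_le_mul_left _ hcard)
    linarith

/-- the affine forms of a pattern `H` and of a progression which begins at `h` -/
def II (H : Finset ℕ) (h k : ℕ) : Finset (ℕ × ℕ) := H ×ˢ {0} ∪ ({h} ×ˢ Ico 1 k)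

/-- the value of a form -/
def ph (d : ℕ) (a : ℕ × ℕ) : ℕ := a.1 + a.2 * d

theorem mem_II {H : Finset ℕ} {h k : ℕ} {a : ℕ × ℕ} : a ∈ II H h k ↔ (a.1 ∈ H ∧ a.2 = 0) ∨ (a.1 = h ∧ 1 ≤ a.2 ∧ a.2 < k) := by
  unfold II
  rw [mem_union, mem_product, mem_product, mem_singleton, mem_singleton, mem_Ico]

theorem card_II (H : Finset ℕ) (h : ℕ) {k : ℕ} (hk : 1 ≤ k) : (II H h k).card = H.card + (k - 1) := by
  unfold II
  rw [card_union_of_disjoint, card_product, card_product, card_singleton, card_singleton, Nat.card_Ico]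
  · ring
  · rw [Finset.disjoint_left]
    rintro ⟨a, b⟩ h1 h2
    rw [mem_product, mem_singleton] at h1
    rw [mem_product, mem_Ico] at h2
    have := h1.2
    have := h2.2
    simp only at *
    omega

theorem ph_inj {H : Finset ℕ} {h k M d : ℕ} (hH : ∀ t ∈ H, t ≤ M) (hd : M < d) : Set.InjOn (ph d) (II H h k : Set (ℕ × ℕ)) := by
  rintro ⟨a, b⟩ h1 ⟨a', b'⟩ h2 heq
  rw [mem_coe, mem_II] at h1 h2
  simp only [ph] at h1 h2 heq
  rcases h1 with ⟨h1, rfl⟩ | ⟨rfl, h1, h1'⟩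
  · rcases h2 with ⟨h2, rfl⟩ | ⟨rfl, h2, h2'⟩
    · simp only [zero_mul, add_zero] at heq
      rw [heq]
    · have e1 := hH a h1
      have e2 : d ≤ b' * d := Nat.le_mul_of_pos_left _ h2
      omega
  · rcases h2 with ⟨h2, rfl⟩ | ⟨rfl, h2, h2'⟩
    · have e1 := hH a' h2
      have e2 : d ≤ b * d := Nat.le_mul_of_pos_left _ h1
      omega
    · have e1 : b * d = b' * d := by omega
      have e2 : b = b' := Nat.eq_of_mul_eq_mul_right (by omega) e1
      rw [e2]

/-- the average of the singular series over the differences -/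
theorem rat_avg (H : Finset ℕ) {h k M : ℕ} (hh : h ∈ H) (hk : 1 ≤ k) (hH : ∀ t ∈ H, t ≤ M) (B : ℕ) :
    ∃ C > (0 : ℝ), ∀ D : ℕ, 1 ≤ D → ∑ d ∈ Ioc M D, ∑ q ∈ prs ((II H h k).image (ph d)), rat (q.2 - q.1) ^ B ≤ C * D := by
  classical
  obtain ⟨C, hC, hmom⟩ := Pool.Agent.H646.MomentM.rat_moment B
  refine ⟨((II H h k ×ˢ II H h k).card : ℝ) * (C * (k + M) + C * M) + 1, by positivity, fun D hD => ?_⟩
  have hD1 : (1 : ℝ) ≤ D := by exact_mod_cast hD
  -- the pairs of forms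
  have h1 : ∀ d ∈ Ioc M D, ∑ q ∈ prs ((II H h k).image (ph d)), rat (q.2 - q.1) ^ B ≤
      ∑ r ∈ II H h k ×ˢ II H h k, if ph d r.1 < ph d r.2 then rat (ph d r.2 - ph d r.1) ^ B else 0 := by
    intro d hd
    rw [← sum_filter]
    have h2 : prs ((II H h k).image (ph d)) ⊆ ((II H h k ×ˢ II H h k).filter (fun r => ph d r.1 < ph d r.2)).image
        (fun r => (ph d r.1, ph d r.2)) := by
      rintro ⟨x, y⟩ hxy
      unfold prs at hxy
      rw [mem_filter, mem_product, mem_image, mem_image] at hxy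
      obtain ⟨⟨⟨a, ha, h3⟩, ⟨b, hb, h4⟩⟩, h5⟩ := hxy
      simp only at h3 h4 h5
      rw [mem_image]
      refine ⟨(a, b), ?_, by simp only [h3, h4]⟩
      rw [mem_filter, mem_product]
      simp only [h3, h4]
      exact ⟨⟨ha, hb⟩, h5⟩
    refine (sum_le_sum_of_subset_of_nonneg h2 fun q _ _ => pow_nonneg (rat_nonneg _) _).trans ?_
    exact sum_image_le_of_nonneg (fun r _ => pow_nonneg (rat_nonneg _) _)
  refine (sum_le_sum h1).trans ?_
  rw [sum_comm]
  have h2 : ∀ r ∈ II H h k ×ˢ II H h k, (∑ d ∈ Ioc M D, if ph d r.1 < ph d r.2 then rat (ph d r.2 - ph d r.1) ^ B else 0) ≤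
      (C * (k + M) + C * M) * D := by
    rintro ⟨⟨a, b⟩, ⟨a', b'⟩⟩ hr
    rw [mem_product, mem_II, mem_II] at hr
    simp only at hr
    show (∑ d ∈ Ioc M D, if a + b * d < a' + b' * d then rat ((a' + b' * d) - (a + b * d)) ^ B else 0) ≤ (C * (k + M) + C * M) * D
    have hle : ∀ n N : ℕ, 1 ≤ n → n ≤ N → rat n ^ B ≤ C * N := by
      intro n N hn hnN
      refine le_trans ?_ (hmom N)
      exact single_le_sum (f := fun n => rat n ^ B) (fun i _ => pow_nonneg (rat_nonneg i) _) (mem_Icc.2 ⟨hn, hnN⟩)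
    have ha : a ≤ M := by
      rcases hr.1 with h3 | h3
      · exact hH _ h3.1
      · rw [h3.1]; exact hH _ hh
    have ha' : a' ≤ M := by
      rcases hr.2 with h3 | h3
      · exact hH _ h3.1
      · rw [h3.1]; exact hH _ hh
    have hb' : b' ≤ k := by
      rcases hr.2 with h3 | h3
      · rw [h3.2]; omega
      · omega
    rcases lt_trichotomy b b' with hb | hb | hb
    · -- increasing forms
      obtain ⟨g, hg⟩ : ∃ g : ℕ → ℕ, g = fun d => (a' + b' * d) - (a + b * d) := ⟨_, rfl⟩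
      have hval : ∀ d ∈ Ioc M D, 1 ≤ g d ∧ g d ≤ k * D + M ∧ (a + b * d) + g d = a' + b' * d := by
        intro d hd
        rw [mem_Ioc] at hd
        have e1 : (b + 1) * d ≤ b' * d := Nat.mul_le_mul_right _ hb
        have e2 : (b + 1) * d = b * d + d := by ring
        have e3 : b' * d ≤ k * D := Nat.mul_le_mul hb' hd.2
        rw [hg]
        simp only
        omega
      have hinj : Set.InjOn g (Ioc M D : Set ℕ) := by
        intro d hd d' hd' heq
        rw [mem_coe] at hd hd'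
        have e1 := (hval d hd).2.2
        have e2 := (hval d' hd').2.2
        rw [heq] at e1
        obtain ⟨G, hG⟩ : ∃ G, G = g d' := ⟨_, rfl⟩
        rw [← hG] at e1 e2
        rcases lt_trichotomy d d' with h3 | h3 | h3
        · exfalso
          obtain ⟨c, hc⟩ : ∃ c, b' = b + c ∧ 1 ≤ c := ⟨b' - b, by omega, by omega⟩
          obtain ⟨hc, hc1⟩ := hc
          obtain ⟨e, he, he1⟩ : ∃ e, d' = d + e ∧ 1 ≤ e := ⟨d' - d, by omega, by omega⟩
          rw [hc, he] at e2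
          rw [hc] at e1
          have e3 : 1 ≤ c * e := Nat.mul_pos hc1 he1
          nlinarith
        · exact h3
        · exfalso
          obtain ⟨c, hc⟩ : ∃ c, b' = b + c ∧ 1 ≤ c := ⟨b' - b, by omega, by omega⟩
          obtain ⟨hc, hc1⟩ := hc
          obtain ⟨e, he, he1⟩ : ∃ e, d = d' + e ∧ 1 ≤ e := ⟨d - d', by omega, by omega⟩
          rw [hc, he] at e1
          rw [hc] at e2
          have e3 : 1 ≤ c * e := Nat.mul_pos hc1 he1
          nlinarith
      have h3 : (∑ d ∈ Ioc M D, if a + b * d < a' + b' * d then rat ((a' + b' * d) - (a + b * d)) ^ B else 0) ≤ ∑ d ∈ Ioc M D, rat (g d) ^ B := by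
        refine sum_le_sum fun d _ => ?_
        split_ifs
        · rw [hg]
        · exact pow_nonneg (rat_nonneg _) _
      have h4 : ∑ d ∈ Ioc M D, rat (g d) ^ B ≤ ∑ n ∈ Icc 1 (k * D + M), rat n ^ B := by
        rw [← sum_image (s := Ioc M D) (g := g) (f := fun n => rat n ^ B) hinj]
        refine sum_le_sum_of_subset_of_nonneg ?_ (fun n _ _ => pow_nonneg (rat_nonneg _) _)
        intro n hn
        obtain ⟨d, hd, rfl⟩ := mem_image.1 hn
        rw [mem_Icc]
        exact ⟨(hval d hd).1, (hval d hd).2.1⟩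
      have h5 := hmom (k * D + M)
      push_cast at h5
      have h6 : C * (k * D + M) ≤ (C * (k + M) + C * M) * D := by
        have hM : (0 : ℝ) ≤ M := Nat.cast_nonneg _
        have hk0 : (0 : ℝ) ≤ k := Nat.cast_nonneg _
        have e1 : (M : ℝ) ≤ M * D := by nlinarith
        have e2 : 0 ≤ C * M * D := by positivity
        nlinarith
      linarith
    · -- equal slopes
      subst hb
      have h3 : ∀ d ∈ Ioc M D, (if a + b * d < a' + b * d then rat ((a' + b * d) - (a + b * d)) ^ B else 0) ≤ C * M := by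
        intro d _
        split_ifs with h4
        · exact hle _ _ (by omega) (by omega)
        · positivity
      refine (sum_le_sum h3).trans ?_
      rw [sum_const, Nat.card_Ioc, nsmul_eq_mul]
      have e1 : ((D - M : ℕ) : ℝ) ≤ D := by exact_mod_cast Nat.sub_le D M
      have e2 : ((D - M : ℕ) : ℝ) * (C * M) ≤ D * (C * M) := mul_le_mul_of_nonneg_right e1 (by positivity)
      have e3 : 0 ≤ C * (k + M) * D := by positivity
      nlinarith
    · -- decreasing forms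
      have h3 : ∀ d ∈ Ioc M D, (if a + b * d < a' + b' * d then rat ((a' + b' * d) - (a + b * d)) ^ B else 0) = 0 := by
        intro d hd
        rw [mem_Ioc] at hd
        have e1 : (b' + 1) * d ≤ b * d := Nat.mul_le_mul_right _ hb
        have e2 : (b' + 1) * d = b' * d + d := by ring
        rw [if_neg (by omega)]
      rw [sum_congr rfl h3, sum_const_zero]
      positivity
  refine (sum_le_sum h2).trans ?_
  rw [sum_const, nsmul_eq_mul]
  have : 0 ≤ (D : ℝ) := by linarith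
  nlinarith

open Classical in
/-- **Patterns extended by a progression**, large differences. -/
theorem ext_bound (H : Finset ℕ) {h k M : ℕ} (hh : h ∈ H) (hk : 1 ≤ k) (hH : ∀ t ∈ H, t ≤ M) :
    ∃ C > (0 : ℝ), ∃ x₀ : ℕ, ∀ x : ℕ, x₀ ≤ x → ∀ D : ℕ, 1 ≤ D →
      (((Icc 1 x).filter (fun n => (∀ t ∈ H, (n + t).Prime) ∧ ∃ d, M < d ∧ d ≤ D ∧ ∀ i < k, (n + h + i * d).Prime)).card : ℝ) ≤
        C * x * D / (Real.log x) ^ (H.card + (k - 1)) := by
  classical
  have hcard : 1 ≤ H.card := card_pos.2 ⟨h, hh⟩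
  obtain ⟨C1, hC1, B, x₀, hb⟩ := fin_bound (m := H.card + (k - 1)) (by omega)
  obtain ⟨C2, hC2, hr⟩ := rat_avg H hh hk hH B
  refine ⟨C1 * (1 + C2), by positivity, x₀, fun x hx D hD => ?_⟩
  have h1 : (((Icc 1 x).filter (fun n => (∀ t ∈ H, (n + t).Prime) ∧ ∃ d, M < d ∧ d ≤ D ∧ ∀ i < k, (n + h + i * d).Prime)).card : ℝ) ≤
      ∑ d ∈ Ioc M D, (((Icc 1 x).filter (fun n => ∀ t ∈ (II H h k).image (ph d), (n + t).Prime)).card : ℝ) := by
    have h2 : (Icc 1 x).filter (fun n => (∀ t ∈ H, (n + t).Prime) ∧ ∃ d, M < d ∧ d ≤ D ∧ ∀ i < k, (n + h + i * d).Prime) ⊆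
        (Ioc M D).biUnion (fun d => (Icc 1 x).filter (fun n => ∀ t ∈ (II H h k).image (ph d), (n + t).Prime)) := by
      intro n hn
      rw [mem_filter] at hn
      obtain ⟨hn1, hn2, d, hd1, hd2, hn3⟩ := hn
      rw [mem_biUnion]
      refine ⟨d, mem_Ioc.2 ⟨hd1, hd2⟩, ?_⟩
      rw [mem_filter]
      refine ⟨hn1, fun t ht => ?_⟩
      obtain ⟨⟨a, b⟩, hab, rfl⟩ := mem_image.1 ht
      rw [mem_II] at hab
      simp only [ph] at hab ⊢
      rcases hab with ⟨h3, rfl⟩ | ⟨rfl, h3, h4⟩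
      · have := hn2 a h3
        simpa using this
      · have := hn3 b h4
        rwa [← add_assoc]
    have h3 := (card_le_card h2).trans card_biUnion_le
    exact_mod_cast h3
  refine h1.trans ?_
  have hlog := Real.log_natCast_nonneg x
  have h2 : ∀ d ∈ Ioc M D, (((Icc 1 x).filter (fun n => ∀ t ∈ (II H h k).image (ph d), (n + t).Prime)).card : ℝ) ≤
      C1 * x / (Real.log x) ^ (H.card + (k - 1)) * (1 + ∑ q ∈ prs ((II H h k).image (ph d)), rat (q.2 - q.1) ^ B) := by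
    intro d hd
    rw [mem_Ioc] at hd
    refine hb x hx _ ?_
    rw [card_image_of_injOn (ph_inj hH hd.1), card_II H h hk]
  refine (sum_le_sum h2).trans ?_
  rw [← mul_sum, sum_add_distrib, sum_const, Nat.card_Ioc, nsmul_eq_mul, mul_one]
  have h3 := hr D hD
  have h4 : ((D - M : ℕ) : ℝ) ≤ D := by exact_mod_cast Nat.sub_le D M
  have h5 : ((D - M : ℕ) : ℝ) + ∑ d ∈ Ioc M D, ∑ q ∈ prs ((II H h k).image (ph d)), rat (q.2 - q.1) ^ B ≤ (1 + C2) * D := by linarith
  have h6 : 0 ≤ C1 * x / (Real.log x) ^ (H.card + (k - 1)) := by positivity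
  refine (mul_le_mul_of_nonneg_left h5 h6).trans (le_of_eq ?_)
  ring

/-- **Patterns**. -/
theorem pat_bound (T : Finset ℕ) (hT : T.Nonempty) :
    ∃ C > (0 : ℝ), ∃ x₀ : ℕ, ∀ x : ℕ, x₀ ≤ x →
      (((Icc 1 x).filter (fun n => ∀ t ∈ T, (n + t).Prime)).card : ℝ) ≤ C * x / (Real.log x) ^ T.card := by
  classical
  obtain ⟨C, hC, B, x₀, hb⟩ := fin_bound (m := T.card) (card_pos.2 hT)
  have h0 : 0 ≤ ∑ q ∈ prs T, rat (q.2 - q.1) ^ B := sum_nonneg fun q _ => pow_nonneg (rat_nonneg _) _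
  refine ⟨C * (1 + ∑ q ∈ prs T, rat (q.2 - q.1) ^ B), by positivity, x₀, fun x hx => ?_⟩
  refine (hb x hx T rfl).trans (le_of_eq ?_)
  ring

open Classical in
/-- **Patterns extended by a progression**, all differences. -/
theorem all_bound (H : Finset ℕ) {h k : ℕ} (hh : h ∈ H) (hk : 1 ≤ k) (hno : ¬ ∃ a d, 1 ≤ d ∧ ∀ i < k, a + i * d ∈ H) :
    ∃ C > (0 : ℝ), ∃ x₀ : ℕ, ∀ x : ℕ, x₀ ≤ x → ∀ D : ℕ, 1 ≤ D →
      (((Icc 1 x).filter (fun n => (∀ t ∈ H, (n + t).Prime) ∧ ∃ d, 1 ≤ d ∧ d ≤ D ∧ ∀ i < k, (n + h + i * d).Prime)).card : ℝ) ≤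
        C * (x / (Real.log x) ^ (H.card + 1) + x * D / (Real.log x) ^ (H.card + (k - 1))) := by
  classical
  obtain ⟨M, hM⟩ : ∃ M : ℕ, ∀ t ∈ H, t ≤ M := ⟨H.sup id, fun t ht => le_sup (f := id) ht⟩
  obtain ⟨C1, hC1, x1, hb1⟩ := ext_bound H hh hk hM
  -- the small differences
  obtain ⟨TT, hTT⟩ : ∃ TT : ℕ → Finset ℕ, TT = fun d => H ∪ (range k).image (fun i => h + i * d) := ⟨_, rfl⟩
  have hTne : ∀ d, (TT d).Nonempty := fun d => by
    rw [hTT]
    exact ⟨h, mem_union_left _ hh⟩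
  have hTc : ∀ d, 1 ≤ d → H.card + 1 ≤ (TT d).card := by
    intro d hd
    rw [hTT]
    simp only
    have h1 : ∃ i < k, h + i * d ∉ H := by
      by_contra hcon
      push Not at hcon
      exact hno ⟨h, d, hd, hcon⟩
    obtain ⟨i, hi, h2⟩ := h1
    have h3 : insert (h + i * d) H ⊆ H ∪ (range k).image (fun i => h + i * d) := by
      intro t ht
      rcases mem_insert.1 ht with rfl | ht
      · exact mem_union_right _ (mem_image.2 ⟨i, mem_range.2 hi, rfl⟩)
      · exact mem_union_left _ ht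
    have h4 := card_le_card h3
    rwa [card_insert_of_notMem h2] at h4
  choose C2 hC2 x2 hb2 using fun d => pat_bound (TT d) (hTne d)
  obtain ⟨x3, hx3⟩ : ∃ x3 : ℕ, ∀ x : ℕ, x3 ≤ x → 1 ≤ Real.log x := by
    have := (Real.tendsto_log_atTop.comp (tendsto_natCast_atTop_atTop (R := ℝ))).eventually_ge_atTop 1
    obtain ⟨N, hN⟩ := eventually_atTop.1 this
    exact ⟨N, fun x hx => hN x hx⟩
  refine ⟨C1 + ∑ d ∈ Icc 1 M, C2 d, ?_, max (max x1 x3) ((Icc 1 M).sup x2), fun x hx D hD => ?_⟩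
  · have : 0 ≤ ∑ d ∈ Icc 1 M, C2 d := sum_nonneg fun d _ => (hC2 d).le
    linarith
  have hx1 : x1 ≤ x := le_trans (le_trans (le_max_left _ _) (le_max_left _ _)) hx
  have hx3' : x3 ≤ x := le_trans (le_trans (le_max_right _ _) (le_max_left _ _)) hx
  have hL := hx3 x hx3'
  have hx0 : (0 : ℝ) ≤ x := Nat.cast_nonneg _
  have hD0 : (0 : ℝ) ≤ D := Nat.cast_nonneg _
  have h1 : (Icc 1 x).filter (fun n => (∀ t ∈ H, (n + t).Prime) ∧ ∃ d, 1 ≤ d ∧ d ≤ D ∧ ∀ i < k, (n + h + i * d).Prime) ⊆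
      (Icc 1 x).filter (fun n => (∀ t ∈ H, (n + t).Prime) ∧ ∃ d, M < d ∧ d ≤ D ∧ ∀ i < k, (n + h + i * d).Prime) ∪
        (Icc 1 M).biUnion (fun d => (Icc 1 x).filter (fun n => ∀ t ∈ TT d, (n + t).Prime)) := by
    intro n hn
    rw [mem_filter] at hn
    obtain ⟨hn1, hn2, d, hd1, hd2, hn3⟩ := hn
    rw [mem_union]
    rcases le_or_gt d M with h | h
    · right
      rw [mem_biUnion]
      refine ⟨d, mem_Icc.2 ⟨hd1, h⟩, ?_⟩
      rw [mem_filter]
      refine ⟨hn1, fun t ht => ?_⟩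
      rw [hTT] at ht
      rcases mem_union.1 ht with ht | ht
      · exact hn2 t ht
      · obtain ⟨i, hi, rfl⟩ := mem_image.1 ht
        rw [← add_assoc]
        exact hn3 i (mem_range.1 hi)
    · left
      rw [mem_filter]
      exact ⟨hn1, hn2, d, h, hd2, hn3⟩
  have h2 := (card_le_card h1).trans ((card_union_le _ _).trans (Nat.add_le_add_left card_biUnion_le _))
  have h3 : (((Icc 1 x).filter (fun n => (∀ t ∈ H, (n + t).Prime) ∧ ∃ d, 1 ≤ d ∧ d ≤ D ∧ ∀ i < k, (n + h + i * d).Prime)).card : ℝ) ≤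
      (((Icc 1 x).filter (fun n => (∀ t ∈ H, (n + t).Prime) ∧ ∃ d, M < d ∧ d ≤ D ∧ ∀ i < k, (n + h + i * d).Prime)).card : ℝ) +
        ∑ d ∈ Icc 1 M, (((Icc 1 x).filter (fun n => ∀ t ∈ TT d, (n + t).Prime)).card : ℝ) := by exact_mod_cast h2
  refine h3.trans ?_
  have h4 := hb1 x hx1 D hD
  have h5 : ∑ d ∈ Icc 1 M, (((Icc 1 x).filter (fun n => ∀ t ∈ TT d, (n + t).Prime)).card : ℝ) ≤
      ∑ d ∈ Icc 1 M, C2 d * (x / (Real.log x) ^ (H.card + 1)) := by
    refine sum_le_sum fun d hd => ?_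
    have hx2 : x2 d ≤ x := le_trans (le_trans (le_sup (f := x2) hd) (le_max_right _ _)) hx
    refine (hb2 d x hx2).trans ?_
    rw [mul_div_assoc]
    refine mul_le_mul_of_nonneg_left ?_ (hC2 d).le
    exact div_le_div_of_nonneg_left hx0 (by positivity) (pow_le_pow_right₀ hL (hTc d (mem_Icc.1 hd).1))
  rw [← sum_mul] at h5
  have h6 : 0 ≤ x / (Real.log x) ^ (H.card + 1) := by positivity
  have h7 : 0 ≤ x * D / (Real.log x) ^ (H.card + (k - 1)) := by positivity
  have h8 : 0 ≤ ∑ d ∈ Icc 1 M, C2 d := sum_nonneg fun d _ => (hC2 d).le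
  have h9 : C1 * x * D / (Real.log x) ^ (H.card + (k - 1)) = C1 * (x * D / (Real.log x) ^ (H.card + (k - 1))) := by ring
  rw [h9] at h4
  nlinarith [mul_nonneg hC1.le h6, mul_nonneg h8 h7]

end Pool.Agent.H38.BR
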