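import Pool.Agent.H38.BR.A

/-!
# Sets of primes of relative density one without consecutive elements in arithmetic progression
-/

set_option autoImplicit false

namespace Pool.Agent.H38.BR

open Finset Filter
open scoped Topology

/-- the critical difference -/
noncomputable def ff (k n : ℕ) : ℕ := ⌊(Real.log n) ^ ((k : ℝ) / 2)⌋₊

theorem ff_mono (k : ℕ) {m n : ℕ} (hm : 1 ≤ m) (h : m ≤ n) : ff k m ≤ ff k n := by
  unfold ff
  apply Nat.floor_mono
  have h1 : (1 : ℝ) ≤ m := by exact_mod_cast hm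
  have h2 : (m : ℝ) ≤ n := by exact_mod_cast h
  exact Real.rpow_le_rpow (Real.log_natCast_nonneg m) (Real.log_le_log (by linarith) h2) (by positivity)

theorem ff_le (k n : ℕ) : (ff k n : ℝ) ≤ (Real.log n) ^ ((k : ℝ) / 2) :=
  Nat.floor_le (Real.rpow_nonneg (Real.log_natCast_nonneg n) _)

theorem le_ff (k n : ℕ) : (Real.log n) ^ ((k : ℝ) / 2) - 1 ≤ ff k n := by
  have := Nat.lt_floor_add_one ((Real.log n) ^ ((k : ℝ) / 2))
  unfold ff
  linarith

theorem log_top : Tendsto (fun n : ℕ => Real.log n) atTop atTop :=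
  Real.tendsto_log_atTop.comp (tendsto_natCast_atTop_atTop (R := ℝ))

theorem pow_top {k : ℕ} (hk : 1 ≤ k) : Tendsto (fun n : ℕ => (Real.log n) ^ ((k : ℝ) / 2)) atTop atTop := by
  have hk' : (1 : ℝ) ≤ k := by exact_mod_cast hk
  exact (tendsto_rpow_atTop (show 0 < (k : ℝ) / 2 by linarith)).comp log_top

theorem ff_ge_one {k : ℕ} (hk : 1 ≤ k) : ∀ᶠ n : ℕ in atTop, 1 ≤ ff k n := by
  filter_upwards [(pow_top hk).eventually_ge_atTop 1] with n hn
  unfold ff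
  exact Nat.le_floor (by simpa using hn)

theorem ff_top {k : ℕ} (hk : 1 ≤ k) (M : ℕ) : ∀ᶠ n : ℕ in atTop, M ≤ ff k n := by
  filter_upwards [(pow_top hk).eventually_ge_atTop M] with n hn
  unfold ff
  exact Nat.le_floor hn

/-- doubling -/
theorem ff_double {k : ℕ} (hk : 1 ≤ k) : ∀ᶠ n : ℕ in atTop, ff k (2 * n) ≤ 2 * ff k n := by
  have h1 : Tendsto (fun n : ℕ => (Real.log (2 * n : ℕ) / Real.log n) ^ ((k : ℝ) / 2)) atTop (𝓝 1) := by
    have h2 : Tendsto (fun n : ℕ => Real.log 2 / Real.log n + 1) atTop (𝓝 1) := by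
      have := (log_top.const_div_atTop (Real.log 2)).add_const 1
      simpa using this
    have h3 : Tendsto (fun n : ℕ => Real.log (2 * n : ℕ) / Real.log n) atTop (𝓝 1) := by
      refine h2.congr' ?_
      filter_upwards [eventually_ge_atTop 3] with n hn
      have hn' : (3 : ℝ) ≤ n := by exact_mod_cast hn
      have hl : 0 < Real.log n := Real.log_pos (by linarith)
      push_cast
      rw [Real.log_mul (by norm_num) (by linarith)]
      field_simp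
    have h4 := h3.rpow_const (p := (k : ℝ) / 2) (Or.inl one_ne_zero)
    rwa [Real.one_rpow] at h4
  filter_upwards [h1.eventually (ge_mem_nhds (show (1 : ℝ) < 3 / 2 by norm_num)), (pow_top hk).eventually_ge_atTop 4,
    eventually_ge_atTop 3] with n g1 g2 hn
  have hn' : (3 : ℝ) ≤ n := by exact_mod_cast hn
  have hl : 0 < Real.log n := Real.log_pos (by linarith)
  have hl2 : 0 ≤ Real.log (2 * n : ℕ) := Real.log_natCast_nonneg _
  rw [Real.div_rpow hl2 hl.le, div_le_iff₀ (by linarith)] at g1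
  have e1 := ff_le k (2 * n)
  have e2 := le_ff k n
  have e3 : (ff k (2 * n) : ℝ) ≤ 2 * ff k n := by linarith
  exact_mod_cast e3

/-- the critical difference is small -/
theorem ff_small {k : ℕ} : ∀ᶠ n : ℕ in atTop, ff k (2 * n) < n := by
  have h1 := (isLittleO_log_rpow_rpow_atTop ((k : ℝ) / 2) (show (0 : ℝ) < 1 by norm_num)).bound (show (0 : ℝ) < 1 / 4 by norm_num)
  have h2 : Tendsto (fun n : ℕ => ((2 * n : ℕ) : ℝ)) atTop atTop := by
    have := (tendsto_natCast_atTop_atTop (R := ℝ)).const_mul_atTop (show (0 : ℝ) < 2 by norm_num)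
    refine this.congr fun n => ?_
    push_cast
    ring
  filter_upwards [h2.eventually h1, eventually_ge_atTop 1] with n g1 hn
  have hn' : (1 : ℝ) ≤ n := by exact_mod_cast hn
  have hl2 : 0 ≤ Real.log (2 * n : ℕ) := Real.log_natCast_nonneg _
  rw [Real.norm_of_nonneg (Real.rpow_nonneg hl2 _), Real.rpow_one, Real.norm_of_nonneg (Nat.cast_nonneg _)] at g1
  have e1 := ff_le k (2 * n)
  push_cast at g1 e1
  have e2 : (ff k (2 * n) : ℝ) < n := by linarith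
  exact_mod_cast e2

/-! ## The construction -/

/-- the primes which do not begin a short progression of `k` primes -/
def PP (k : ℕ) : Set ℕ := {p | p.Prime ∧ ¬ ∃ d, 1 ≤ d ∧ d ≤ 2 * ff k p ∧ ∀ i < k, (p + i * d).Prime}

/-- neighbours -/
def Near (k x y : ℕ) : Prop := x ≠ y ∧ x ≤ y + ff k (min x y) ∧ y ≤ x + ff k (min x y)

theorem Near.symm {k x y : ℕ} (h : Near k x y) : Near k y x := by
  obtain ⟨h1, h2, h3⟩ := h
  refine ⟨h1.symm, ?_, ?_⟩
  · rw [min_comm]; exact h3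
  · rw [min_comm]; exact h2

/-- the elements of `PP` which are not isolated -/
def SZ (k : ℕ) : Set ℕ := {b | b ∈ PP k ∧ ∃ y ∈ PP k, Near k b y}

/-- `n, n + d, ..., n + (k - 1) d` are consecutive elements of `S` -/
def Run (S : Set ℕ) (n k d : ℕ) : Prop :=
  ∀ m, n ≤ m → m ≤ n + (k - 1) * d → (m ∈ S ↔ ∃ i < k, m = n + i * d)

/-- **No runs.** -/
theorem no_run {k b₀ : ℕ} (hk : 3 ≤ k) (hb : 1 ≤ b₀) (h1 : ∀ n, b₀ ≤ n → ff k (2 * n) ≤ 2 * ff k n) (h2 : ∀ n, b₀ ≤ n → ff k (2 * n) < n)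
    {n d : ℕ} (hd : 1 ≤ d) (hr : Run {b | b ∈ SZ k ∧ b₀ ≤ b} n k d) : False := by
  have hmem : ∀ i < k, n + i * d ∈ {b | b ∈ SZ k ∧ b₀ ≤ b} := by
    intro i hi
    have e1 : i * d ≤ (k - 1) * d := Nat.mul_le_mul_right _ (by omega)
    exact (hr (n + i * d) (by omega) (by omega)).2 ⟨i, hi, rfl⟩
  have hn := hmem 0 (by omega)
  have hbm := hmem 1 (by omega)
  rw [zero_mul, add_zero] at hn
  rw [one_mul] at hbm
  obtain ⟨⟨hnP, -⟩, hn0⟩ := hn
  obtain ⟨⟨hbP, y, hyP, hnear⟩, hb0⟩ := hbm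
  have hdn : 2 * ff k n < d := by
    by_contra hcon
    push Not at hcon
    exact hnP.2 ⟨d, hd, hcon, fun i hi => (hmem i hi).1.1.1⟩
  have hfb : ff k (n + d) < d := by
    rcases le_or_gt d n with h | h
    · have e1 := ff_mono k (m := n + d) (n := 2 * n) (by omega) (by omega)
      have e2 := h1 n hn0
      omega
    · have e1 := ff_mono k (m := n + d) (n := 2 * d) (by omega) (by omega)
      have e2 := h2 d (by omega)
      omega
  obtain ⟨g1, g2, g3⟩ := hnear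
  have hy1 : 1 ≤ y := hyP.1.one_lt.le
  have hmin := ff_mono k (m := min (n + d) y) (n := n + d) (le_min (by omega) hy1) (min_le_left _ _)
  have e1 : n < y := by omega
  have e2 : y < n + 2 * d := by omega
  have e3 : 2 * d ≤ (k - 1) * d := Nat.mul_le_mul_right _ (by omega)
  have hyS : y ∈ {b | b ∈ SZ k ∧ b₀ ≤ b} := ⟨⟨hyP, n + d, hbP, Near.symm ⟨g1, g2, g3⟩⟩, by omega⟩
  obtain ⟨i, hi, hyi⟩ := (hr y (by omega) (by omega)).1 hyS
  have e4 : i * d < 2 * d := by omega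
  have e5 : i < 2 := Nat.lt_of_mul_lt_mul_right e4
  interval_cases i
  · omega
  · apply g1
    rw [hyi]
    ring

/-- **The removed first terms.** -/
theorem rem_one {k : ℕ} (hk : 1 ≤ k) :
    ∃ C > (0 : ℝ), ∀ᶠ x : ℕ in atTop, (({p | p.Prime ∧ p ∉ PP k ∧ p ≤ x} : Set ℕ).ncard : ℝ) ≤ C * (x / (Real.log x) ^ ((k : ℝ) / 2)) := by
  classical
  obtain ⟨C, hC, x₀, hb⟩ := ext_bound ({0} : Finset ℕ) (h := 0) (k := k) (M := 0) (mem_singleton.2 rfl) hk (fun t ht => by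
    rw [mem_singleton.1 ht])
  refine ⟨2 * C, by positivity, ?_⟩
  filter_upwards [eventually_ge_atTop x₀, ff_ge_one hk, eventually_ge_atTop 3] with x hx hf hx3
  have hx3' : (3 : ℝ) ≤ x := by exact_mod_cast hx3
  have hl : 0 < Real.log x := Real.log_pos (by linarith)
  have h1 := hb x hx (2 * ff k x) (by omega)
  have h2 : ({p | p.Prime ∧ p ∉ PP k ∧ p ≤ x} : Set ℕ).ncard ≤
      ((Icc 1 x).filter (fun n => (∀ t ∈ ({0} : Finset ℕ), (n + t).Prime) ∧ ∃ d, 0 < d ∧ d ≤ 2 * ff k x ∧ ∀ i < k, (n + 0 + i * d).Prime)).card := by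
    rw [← Set.ncard_coe_finset]
    refine Set.ncard_le_ncard ?_ (Finset.finite_toSet _)
    rintro p ⟨hp1, hp2, hp3⟩
    rw [mem_coe, mem_filter, mem_Icc]
    have h3 : ∃ d, 1 ≤ d ∧ d ≤ 2 * ff k p ∧ ∀ i < k, (p + i * d).Prime := by
      by_contra hcon
      exact hp2 ⟨hp1, hcon⟩
    obtain ⟨d, hd1, hd2, hd3⟩ := h3
    refine ⟨⟨hp1.one_lt.le, hp3⟩, fun t ht => ?_, d, hd1, ?_, fun i hi => ?_⟩
    · rw [mem_singleton.1 ht, add_zero]
      exact hp1
    · have := ff_mono k hp1.one_lt.le hp3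
      omega
    · rw [add_zero]
      exact hd3 i hi
  have h3 : (({p | p.Prime ∧ p ∉ PP k ∧ p ≤ x} : Set ℕ).ncard : ℝ) ≤ C * x * ((2 * ff k x : ℕ) : ℝ) / Real.log x ^ (1 + (k - 1)) := by
    refine le_trans ?_ h1
    exact_mod_cast h2
  refine h3.trans ?_
  have e1 : 1 + (k - 1) = k := by omega
  rw [e1]
  have e2 := ff_le k x
  have e3 : Real.log x ^ k = (Real.log x) ^ ((k : ℝ) / 2) * (Real.log x) ^ ((k : ℝ) / 2) := by
    rw [← Real.rpow_add hl, ← Real.rpow_natCast]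
    congr 1
    ring
  have hp : 0 < (Real.log x) ^ ((k : ℝ) / 2) := Real.rpow_pos_of_pos hl _
  rw [e3]
  push_cast
  have e4 : C * x * (2 * (ff k x : ℝ)) / ((Real.log x) ^ ((k : ℝ) / 2) * (Real.log x) ^ ((k : ℝ) / 2)) =
      2 * C * (x / (Real.log x) ^ ((k : ℝ) / 2)) * ((ff k x : ℝ) / (Real.log x) ^ ((k : ℝ) / 2)) := by
    field_simp
  rw [e4]
  have e5 : (ff k x : ℝ) / (Real.log x) ^ ((k : ℝ) / 2) ≤ 1 := by
    rw [div_le_one hp]
    exact e2
  have e6 : 0 ≤ 2 * C * (x / (Real.log x) ^ ((k : ℝ) / 2)) := by positivity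
  calc _ ≤ 2 * C * (x / (Real.log x) ^ ((k : ℝ) / 2)) * 1 := mul_le_mul_of_nonneg_left e5 e6
    _ = _ := mul_one _

/-- **The removed isolated elements.** -/
theorem rem_two {k : ℕ} (hk : 1 ≤ k) :
    ∃ C > (0 : ℝ), ∀ᶠ x : ℕ in atTop, (({b | b ∈ PP k ∧ b ∉ SZ k ∧ b ≤ x} : Set ℕ).ncard : ℝ) ≤ C * (x / (Real.log x) ^ ((k : ℝ) / 2)) := by
  classical
  have hk' : (1 : ℝ) ≤ k := by exact_mod_cast hk
  obtain ⟨r, hr⟩ : ∃ r, r = (k : ℝ) / 2 := ⟨_, rfl⟩
  have hr0 : 0 < r := by rw [hr]; linarith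
  refine ⟨2 * 4 ^ r + 2, by positivity, ?_⟩
  have hsq := (isLittleO_log_rpow_rpow_atTop r (show (0 : ℝ) < 1 / 2 by norm_num)).bound (show (0 : ℝ) < 1 by norm_num)
  have hst : Tendsto (fun x : ℕ => Nat.sqrt x) atTop atTop := by
    refine tendsto_atTop_atTop.2 fun b => ⟨b * b, fun x hx => ?_⟩
    exact Nat.le_sqrt.2 hx
  filter_upwards [(tendsto_natCast_atTop_atTop (R := ℝ)).eventually hsq, hst.eventually ((pow_top hk).eventually_ge_atTop 2),
    eventually_ge_atTop 16, hst.eventually (ff_ge_one hk)] with x g1 g2 hx g3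
  have hx' : (16 : ℝ) ≤ x := by exact_mod_cast hx
  have hl : 0 < Real.log x := Real.log_pos (by linarith)
  rw [← hr]
  rw [← hr] at g2
  obtain ⟨s, hs⟩ : ∃ s, s = Nat.sqrt x := ⟨_, rfl⟩
  rw [← hs] at g2 g3
  rw [Real.norm_of_nonneg (Real.rpow_nonneg hl.le _), Real.norm_of_nonneg (by positivity), one_mul] at g1
  have hs4 : 4 ≤ s := by rw [hs]; exact Nat.le_sqrt.2 (by omega)
  have hss : s * s ≤ x := by rw [hs]; exact Nat.sqrt_le x
  have hss2 : x < (s + 1) * (s + 1) := by rw [hs]; exact Nat.lt_succ_sqrt x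
  have hs4' : (4 : ℝ) ≤ s := by exact_mod_cast hs4
  have hss' : (s : ℝ) * s ≤ x := by exact_mod_cast hss
  have hss2' : (x : ℝ) < (s + 1) * (s + 1) := by exact_mod_cast hss2
  -- the logarithms
  have hlog : Real.log x ≤ 4 * Real.log s := by
    have e1 : (x : ℝ) ≤ (s : ℝ) ^ 4 := by nlinarith [sq_nonneg ((s : ℝ) - 2), sq_nonneg ((s : ℝ) ^ 2 - 4)]
    have e2 := Real.log_le_log (by linarith) e1
    rw [Real.log_pow] at e2
    exact_mod_cast e2
  have hls : 0 < Real.log s := Real.log_pos (by linarith)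
  -- the size of the critical difference
  have hff : (Real.log x) ^ r ≤ 2 * 4 ^ r * ff k s := by
    have e1 : (Real.log x) ^ r ≤ 4 ^ r * (Real.log s) ^ r := by
      rw [← Real.mul_rpow (by norm_num) hls.le]
      exact Real.rpow_le_rpow hl.le hlog hr0.le
    have e2 := le_ff k s
    rw [← hr] at e2
    have e3 : (Real.log s) ^ r ≤ 2 * ff k s := by linarith
    have e4 : (0 : ℝ) < 4 ^ r := by positivity
    nlinarith
  -- the isolated elements
  have hsub : ({b | b ∈ PP k ∧ b ∉ SZ k ∧ b ≤ x} : Set ℕ) ⊆ ↑(range s) ∪ {b | b ∈ PP k ∧ b ∉ SZ k ∧ b ≤ x ∧ s ≤ b} := by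
    rintro b ⟨h1, h2, h3⟩
    rcases lt_or_ge b s with h | h
    · left
      rw [mem_coe, mem_range]
      exact h
    · right
      exact ⟨h1, h2, h3, h⟩
  have hfin : ({b | b ∈ PP k ∧ b ∉ SZ k ∧ b ≤ x ∧ s ≤ b} : Set ℕ).Finite := (Set.finite_Iic x).subset fun b hb => hb.2.2.1
  have hc1 : ({b | b ∈ PP k ∧ b ∉ SZ k ∧ b ≤ x ∧ s ≤ b} : Set ℕ).ncard ≤ x / ff k s + 1 := by
    have e1 : ({b | b ∈ PP k ∧ b ∉ SZ k ∧ b ≤ x ∧ s ≤ b} : Set ℕ).ncard ≤ (↑(range (x / ff k s + 1)) : Set ℕ).ncard := by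
      refine Set.ncard_le_ncard_of_injOn (fun b => b / ff k s) ?_ ?_ (Finset.finite_toSet _)
      · rintro b ⟨_, _, h3, _⟩
        rw [mem_coe, mem_range]
        have := Nat.div_le_div_right (c := ff k s) h3
        omega
      · have key : ∀ b b' : ℕ, b ∈ ({b | b ∈ PP k ∧ b ∉ SZ k ∧ b ≤ x ∧ s ≤ b} : Set ℕ) →
            b' ∈ ({b | b ∈ PP k ∧ b ∉ SZ k ∧ b ≤ x ∧ s ≤ b} : Set ℕ) → b < b' → b / ff k s < b' / ff k s := by
          rintro b b' ⟨h1, h2, h3, h4⟩ ⟨h1', h2', h3', h4'⟩ hlt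
          have e2 : ¬ Near k b b' := fun h => h2 ⟨h1, b', h1', h⟩
          unfold Near at e2
          rw [min_eq_left hlt.le] at e2
          have e3 : b + ff k b < b' := by
            by_contra hcon
            exact e2 ⟨by omega, by omega, by omega⟩
          have e4 := ff_mono k (m := s) (n := b) (by omega) h4
          have e5 : b / ff k s + 1 ≤ b' / ff k s := by
            rw [← Nat.add_div_right _ (by omega)]
            exact Nat.div_le_div_right (by omega)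
          omega
        intro b hb b' hb' heq
        simp only at heq
        rcases lt_trichotomy b b' with h | h | h
        · have := key b b' hb hb' h
          omega
        · exact h
        · have := key b' b hb' hb h
          omega
    rwa [Set.ncard_coe_finset, card_range] at e1
  have hc2 : ({b | b ∈ PP k ∧ b ∉ SZ k ∧ b ≤ x} : Set ℕ).ncard ≤ s + (x / ff k s + 1) := by
    refine (Set.ncard_le_ncard hsub ((Finset.finite_toSet _).union hfin)).trans ((Set.ncard_union_le _ _).trans ?_)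
    rw [Set.ncard_coe_finset, card_range]
    omega
  have hc3 : (({b | b ∈ PP k ∧ b ∉ SZ k ∧ b ≤ x} : Set ℕ).ncard : ℝ) ≤ s + ((x : ℝ) / ff k s + 1) := by
    have e1 : (({b | b ∈ PP k ∧ b ∉ SZ k ∧ b ≤ x} : Set ℕ).ncard : ℝ) ≤ ((s + (x / ff k s + 1) : ℕ) : ℝ) := by exact_mod_cast hc2
    push_cast at e1
    have e2 : ((x / ff k s : ℕ) : ℝ) ≤ (x : ℝ) / ff k s := Nat.cast_div_le
    linarith
  refine hc3.trans ?_
  have hp : 0 < (Real.log x) ^ r := Real.rpow_pos_of_pos hl _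
  have hf0 : (0 : ℝ) < ff k s := by exact_mod_cast g3
  have e1 : (x : ℝ) / ff k s ≤ 2 * 4 ^ r * (x / (Real.log x) ^ r) := by
    rw [div_le_iff₀ hf0]
    have e2 : 2 * 4 ^ r * (x / (Real.log x) ^ r) * ff k s = x * ((2 * 4 ^ r * ff k s) / (Real.log x) ^ r) := by ring
    rw [e2]
    have e3 : 1 ≤ (2 * 4 ^ r * ff k s) / (Real.log x) ^ r := by
      rw [one_le_div hp]
      exact hff
    nlinarith
  have e2 : (s : ℝ) ≤ x / (Real.log x) ^ r := by
    rw [le_div_iff₀ hp]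
    have e3 : (s : ℝ) ≤ (x : ℝ) ^ (1 / 2 : ℝ) := by
      rw [← Real.sqrt_eq_rpow]
      exact Real.le_sqrt_of_sq_le (by rw [sq]; exact hss')
    calc (s : ℝ) * (Real.log x) ^ r ≤ (x : ℝ) ^ (1 / 2 : ℝ) * (x : ℝ) ^ (1 / 2 : ℝ) :=
          mul_le_mul e3 g1 hp.le (by positivity)
      _ = x := by
          rw [← Real.rpow_add (by linarith)]
          norm_num
  linarith

/-- **Patterns.** -/
theorem pat_rem {k b₀ : ℕ} (hk : 3 ≤ k) (H : Finset ℕ) (hH : 2 ≤ H.card) (hno : ¬ ∃ a d, 1 ≤ d ∧ ∀ i < k, a + i * d ∈ H) :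
    ∃ C > (0 : ℝ), ∀ᶠ x : ℕ in atTop, (({n | 1 ≤ n ∧ n ≤ x ∧ (∀ t ∈ H, (n + t).Prime) ∧ ¬ ∀ t ∈ H, n + t ∈ {b | b ∈ SZ k ∧ b₀ ≤ b}} : Set ℕ).ncard : ℝ) ≤
      C * (x / (Real.log x) ^ ((H.card : ℝ) + 1 / 2)) := by
  classical
  obtain ⟨M, hM⟩ : ∃ M : ℕ, ∀ t ∈ H, t ≤ M := ⟨H.sup id, fun t ht => le_sup (f := id) ht⟩
  have hall : ∀ h ∈ H, ∃ C > (0 : ℝ), ∃ x₀ : ℕ, ∀ x : ℕ, x₀ ≤ x → ∀ D : ℕ, 1 ≤ D →
      (((Icc 1 x).filter (fun n => (∀ t ∈ H, (n + t).Prime) ∧ ∃ d, 1 ≤ d ∧ d ≤ D ∧ ∀ i < k, (n + h + i * d).Prime)).card : ℝ) ≤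
        C * (x / (Real.log x) ^ (H.card + 1) + x * D / (Real.log x) ^ (H.card + (k - 1))) :=
    fun h hh => all_bound H hh (by omega) hno
  choose! C hC x₀ hb using hall
  obtain ⟨n₀, hn₀⟩ := eventually_atTop.1 (ff_top (k := k) (by omega) M)
  obtain ⟨N, hN⟩ : ∃ N, N = max (max n₀ b₀) 1 := ⟨_, rfl⟩
  have hCs : 0 ≤ ∑ h ∈ H, C h := sum_nonneg fun h hh => (hC h hh).le
  have hk' : (3 : ℝ) ≤ k := by exact_mod_cast hk
  refine ⟨1 + (∑ h ∈ H, C h) * (1 + 2 * 2 ^ ((k : ℝ) / 2)), by positivity, ?_⟩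
  have hsm : ∀ᶠ x : ℕ in atTop, (N : ℝ) * (Real.log x) ^ ((H.card : ℝ) + 1 / 2) ≤ x := by
    have h1 := (isLittleO_log_rpow_rpow_atTop ((H.card : ℝ) + 1 / 2) (show (0 : ℝ) < 1 by norm_num)).bound
      (show (0 : ℝ) < 1 / (N + 1) by positivity)
    filter_upwards [(tendsto_natCast_atTop_atTop (R := ℝ)).eventually h1, eventually_ge_atTop 3] with x g1 hx
    have hx' : (3 : ℝ) ≤ x := by exact_mod_cast hx
    have hl : 0 < Real.log x := Real.log_pos (by linarith)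
    rw [Real.norm_of_nonneg (Real.rpow_nonneg hl.le _), Real.rpow_one, Real.norm_of_nonneg (Nat.cast_nonneg _)] at g1
    have e1 : (N : ℝ) * (1 / (N + 1) * x) ≤ x := by
      have e2 : (N : ℝ) * (1 / (N + 1) * x) = (N : ℝ) / (N + 1) * x := by ring
      rw [e2]
      have e3 : (N : ℝ) / (N + 1) ≤ 1 := by
        rw [div_le_one (by positivity)]
        linarith
      nlinarith
    exact (mul_le_mul_of_nonneg_left g1 (Nat.cast_nonneg _)).trans e1
  filter_upwards [hsm, eventually_ge_atTop (H.sup x₀), eventually_ge_atTop 3, eventually_ge_atTop M, ff_ge_one (k := k) (by omega),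
    log_top.eventually_ge_atTop 1] with x g1 g2 hx3 gM g3 g4
  have hx' : (3 : ℝ) ≤ x := by exact_mod_cast hx3
  have hl : 0 < Real.log x := by linarith
  obtain ⟨D, hD⟩ : ∃ D, D = 2 * ff k (2 * x) := ⟨_, rfl⟩
  have hff2 : ff k x ≤ ff k (2 * x) := ff_mono k (by omega) (by omega)
  have hsub : ({n | 1 ≤ n ∧ n ≤ x ∧ (∀ t ∈ H, (n + t).Prime) ∧ ¬ ∀ t ∈ H, n + t ∈ {b | b ∈ SZ k ∧ b₀ ≤ b}} : Set ℕ) ⊆
      ↑(range N ∪ H.biUnion (fun h => (Icc 1 x).filter (fun n => (∀ t ∈ H, (n + t).Prime) ∧ ∃ d, 1 ≤ d ∧ d ≤ D ∧ ∀ i < k, (n + h + i * d).Prime))) := by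
    rintro n ⟨h1, h2, h3, h4⟩
    rw [mem_coe, mem_union, mem_range]
    rcases lt_or_ge n N with h | h
    · left; exact h
    · right
      rw [mem_biUnion]
      by_contra hcon
      apply h4
      have hPP : ∀ t ∈ H, n + t ∈ PP k := by
        intro t ht
        refine ⟨h3 t ht, ?_⟩
        rintro ⟨d, hd1, hd2, hd3⟩
        apply hcon
        refine ⟨t, ht, ?_⟩
        rw [mem_filter, mem_Icc]
        refine ⟨⟨h1, h2⟩, h3, d, hd1, ?_, hd3⟩
        have := ff_mono k (m := n + t) (n := 2 * x) (by omega) (by have := hM t ht; omega)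
        omega
      intro t ht
      obtain ⟨t', ht', hne⟩ := exists_mem_ne (by omega : 1 < H.card) t
      have hff : M ≤ ff k (min (n + t) (n + t')) := hn₀ _ (by
        have : n₀ ≤ N := by rw [hN]; exact (le_max_left _ _).trans (le_max_left _ _)
        have := Nat.le_add_right n t
        have := Nat.le_add_right n t'
        exact le_min (by omega) (by omega))
      have e1 := hM t ht
      have e2 := hM t' ht'
      refine ⟨⟨hPP t ht, n + t', hPP t' ht', ?_, ?_, ?_⟩, ?_⟩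
      · intro h5
        exact hne (by omega)
      · omega
      · omega
      · have : b₀ ≤ N := by rw [hN]; exact (le_max_right _ _).trans (le_max_left _ _)
        omega
  have hcard : ({n | 1 ≤ n ∧ n ≤ x ∧ (∀ t ∈ H, (n + t).Prime) ∧ ¬ ∀ t ∈ H, n + t ∈ {b | b ∈ SZ k ∧ b₀ ≤ b}} : Set ℕ).ncard ≤
      N + ∑ h ∈ H, ((Icc 1 x).filter (fun n => (∀ t ∈ H, (n + t).Prime) ∧ ∃ d, 1 ≤ d ∧ d ≤ D ∧ ∀ i < k, (n + h + i * d).Prime)).card := by
    refine (Set.ncard_le_ncard hsub (Finset.finite_toSet _)).trans ?_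
    rw [Set.ncard_coe_finset]
    refine (card_union_le _ _).trans ?_
    rw [card_range]
    exact Nat.add_le_add_left card_biUnion_le _
  have hcard' : (({n | 1 ≤ n ∧ n ≤ x ∧ (∀ t ∈ H, (n + t).Prime) ∧ ¬ ∀ t ∈ H, n + t ∈ {b | b ∈ SZ k ∧ b₀ ≤ b}} : Set ℕ).ncard : ℝ) ≤
      N + ∑ h ∈ H, (((Icc 1 x).filter (fun n => (∀ t ∈ H, (n + t).Prime) ∧ ∃ d, 1 ≤ d ∧ d ≤ D ∧ ∀ i < k, (n + h + i * d).Prime)).card : ℝ) := by
    exact_mod_cast hcard
  refine hcard'.trans ?_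
  have h5 : ∀ h ∈ H, (((Icc 1 x).filter (fun n => (∀ t ∈ H, (n + t).Prime) ∧ ∃ d, 1 ≤ d ∧ d ≤ D ∧ ∀ i < k, (n + h + i * d).Prime)).card : ℝ) ≤
      C h * ((1 + 2 * 2 ^ ((k : ℝ) / 2)) * (x / (Real.log x) ^ ((H.card : ℝ) + 1 / 2))) := by
    intro h hh
    refine (hb h hh x (le_trans (le_sup (f := x₀) hh) g2) D (by omega)).trans ?_
    refine mul_le_mul_of_nonneg_left ?_ (hC h hh).le
    have e1 : (x : ℝ) / (Real.log x) ^ (H.card + 1) ≤ x / (Real.log x) ^ ((H.card : ℝ) + 1 / 2) := by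
      refine div_le_div_of_nonneg_left (by linarith) (Real.rpow_pos_of_pos hl _) ?_
      rw [← Real.rpow_natCast]
      refine Real.rpow_le_rpow_of_exponent_le g4 ?_
      push_cast
      linarith
    have e2 : (D : ℝ) ≤ 2 * (2 ^ ((k : ℝ) / 2) * (Real.log x) ^ ((k : ℝ) / 2)) := by
      rw [hD]
      push_cast
      have e3 := ff_le k (2 * x)
      have e4 : Real.log (2 * x : ℕ) ≤ 2 * Real.log x := by
        push_cast
        rw [Real.log_mul (by norm_num) (by linarith)]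
        have : Real.log 2 ≤ Real.log x := Real.log_le_log (by norm_num) (by linarith)
        linarith
      have e5 : (Real.log (2 * x : ℕ)) ^ ((k : ℝ) / 2) ≤ (2 * Real.log x) ^ ((k : ℝ) / 2) :=
        Real.rpow_le_rpow (Real.log_natCast_nonneg _) e4 (by positivity)
      rw [Real.mul_rpow (by norm_num) hl.le] at e5
      linarith
    have e3 : (x : ℝ) * D / (Real.log x) ^ (H.card + (k - 1)) ≤ 2 * 2 ^ ((k : ℝ) / 2) * (x / (Real.log x) ^ ((H.card : ℝ) + 1 / 2)) := by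
      have e4 : (Real.log x) ^ ((H.card : ℝ) + 1 / 2) * (Real.log x) ^ ((k : ℝ) / 2) ≤ (Real.log x) ^ (H.card + (k - 1)) := by
        rw [← Real.rpow_add hl, ← Real.rpow_natCast]
        refine Real.rpow_le_rpow_of_exponent_le g4 ?_
        push_cast [Nat.cast_sub (show 1 ≤ k by omega)]
        linarith
      have hp1 : 0 < (Real.log x) ^ ((H.card : ℝ) + 1 / 2) := Real.rpow_pos_of_pos hl _
      have hp2 : 0 < (Real.log x) ^ ((k : ℝ) / 2) := Real.rpow_pos_of_pos hl _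
      calc (x : ℝ) * D / (Real.log x) ^ (H.card + (k - 1)) ≤ x * (2 * (2 ^ ((k : ℝ) / 2) * (Real.log x) ^ ((k : ℝ) / 2))) / (Real.log x) ^ (H.card + (k - 1)) :=
            div_le_div_of_nonneg_right (mul_le_mul_of_nonneg_left e2 (by linarith)) (by positivity)
        _ ≤ x * (2 * (2 ^ ((k : ℝ) / 2) * (Real.log x) ^ ((k : ℝ) / 2))) / ((Real.log x) ^ ((H.card : ℝ) + 1 / 2) * (Real.log x) ^ ((k : ℝ) / 2)) :=
            div_le_div_of_nonneg_left (by positivity) (by positivity) e4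
        _ = _ := by field_simp
    linarith
  have h6 := sum_le_sum h5
  rw [← sum_mul] at h6
  have h7 : (N : ℝ) ≤ 1 * (x / (Real.log x) ^ ((H.card : ℝ) + 1 / 2)) := by
    rw [one_mul, le_div_iff₀ (Real.rpow_pos_of_pos hl _)]
    exact g1
  have h8 : (∑ h ∈ H, C h) * ((1 + 2 * 2 ^ ((k : ℝ) / 2)) * (x / (Real.log x) ^ ((H.card : ℝ) + 1 / 2))) =
      (∑ h ∈ H, C h) * (1 + 2 * 2 ^ ((k : ℝ) / 2)) * (x / (Real.log x) ^ ((H.card : ℝ) + 1 / 2)) := by ring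
  rw [h8] at h6
  linarith

/-- the elements `n + h` are consecutive elements of `S` -/
def Cons (S : Set ℕ) (H : Finset ℕ) (n : ℕ) : Prop :=
  (∀ h ∈ H, n + h ∈ S) ∧ ∀ m ∈ S, (∃ h ∈ H, n + h ≤ m) → (∃ h ∈ H, m ≤ n + h) → ∃ h ∈ H, m = n + h

/-- **Consecutive patterns.** -/
theorem cons_rem {k b₀ : ℕ} (hk : 3 ≤ k) (H : Finset ℕ) (hH : 2 ≤ H.card) (hno : ¬ ∃ a d, 1 ≤ d ∧ ∀ i < k, a + i * d ∈ H) :
    ∃ C > (0 : ℝ), ∀ᶠ x : ℕ in atTop, (({n | 1 ≤ n ∧ n ≤ x ∧ ¬ (Cons {p | p.Prime} H n ↔ Cons {b | b ∈ SZ k ∧ b₀ ≤ b} H n)} : Set ℕ).ncard : ℝ) ≤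
      C * (x / (Real.log x) ^ ((H.card : ℝ) + 1 / 2)) := by
  classical
  obtain ⟨M, hM⟩ : ∃ M : ℕ, ∀ t ∈ H, t ≤ M := ⟨H.sup id, fun t ht => le_sup (f := id) ht⟩
  obtain ⟨C1, hC1, g1⟩ := pat_rem (b₀ := b₀) hk H hH hno
  choose C2 hC2 x2 hb2 using fun y => pat_bound (insert y H) (insert_nonempty y H)
  have hCs : 0 ≤ ∑ y ∈ range (M + 1), C2 y := sum_nonneg fun y _ => (hC2 y).le
  refine ⟨C1 + ∑ y ∈ range (M + 1), C2 y, by positivity, ?_⟩
  filter_upwards [g1, eventually_ge_atTop ((range (M + 1)).sup x2), log_top.eventually_ge_atTop 1] with x e1 e2 e3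
  have hl : 0 < Real.log x := by linarith
  have hx0 : (0 : ℝ) ≤ x := Nat.cast_nonneg _
  have hsub : ({n | 1 ≤ n ∧ n ≤ x ∧ ¬ (Cons {p | p.Prime} H n ↔ Cons {b | b ∈ SZ k ∧ b₀ ≤ b} H n)} : Set ℕ) ⊆
      {n | 1 ≤ n ∧ n ≤ x ∧ (∀ t ∈ H, (n + t).Prime) ∧ ¬ ∀ t ∈ H, n + t ∈ {b | b ∈ SZ k ∧ b₀ ≤ b}} ∪
        ↑(((range (M + 1)).filter (fun y => y ∉ H)).biUnion (fun y => (Icc 1 x).filter (fun n => ∀ t ∈ insert y H, (n + t).Prime))) := by
    rintro n ⟨h1, h2, h3⟩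
    by_cases h4 : Cons {p | p.Prime} H n
    · left
      refine ⟨h1, h2, fun t ht => h4.1 t ht, fun h5 => ?_⟩
      apply h3
      refine ⟨fun _ => ⟨h5, fun m hm hm1 hm2 => h4.2 m hm.1.1.1 hm1 hm2⟩, fun _ => h4⟩
    · right
      have h5 : Cons {b | b ∈ SZ k ∧ b₀ ≤ b} H n := by
        by_contra hcon
        exact h3 ⟨fun h => absurd h h4, fun h => absurd h hcon⟩
      have h6 : ∀ t ∈ H, (n + t).Prime := fun t ht => (h5.1 t ht).1.1.1
      have h7 : ∃ m, m.Prime ∧ (∃ h ∈ H, n + h ≤ m) ∧ (∃ h ∈ H, m ≤ n + h) ∧ ¬ ∃ h ∈ H, m = n + h := by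
        by_contra hcon
        apply h4
        refine ⟨h6, fun m hm hm1 hm2 => ?_⟩
        by_contra h8
        exact hcon ⟨m, hm, hm1, hm2, h8⟩
      obtain ⟨m, hm, ⟨a, ha, ham⟩, ⟨b, hb, hbm⟩, hne⟩ := h7
      obtain ⟨y, rfl⟩ := Nat.exists_eq_add_of_le (show n ≤ m by omega)
      rw [mem_coe, mem_biUnion]
      refine ⟨y, ?_, ?_⟩
      · rw [mem_filter, mem_range]
        refine ⟨by have := hM b hb; omega, fun hy => hne ⟨y, hy, rfl⟩⟩
      · rw [mem_filter, mem_Icc]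
        refine ⟨⟨h1, h2⟩, fun t ht => ?_⟩
        rcases mem_insert.1 ht with rfl | ht
        · exact hm
        · exact h6 t ht
  have hfin : ({n | 1 ≤ n ∧ n ≤ x ∧ (∀ t ∈ H, (n + t).Prime) ∧ ¬ ∀ t ∈ H, n + t ∈ {b | b ∈ SZ k ∧ b₀ ≤ b}} : Set ℕ).Finite :=
    (Set.finite_Iic x).subset fun n hn => hn.2.1
  have hc := (Set.ncard_le_ncard hsub (hfin.union (Finset.finite_toSet _))).trans (Set.ncard_union_le _ _)
  rw [Set.ncard_coe_finset] at hc
  have hc2 := hc.trans (Nat.add_le_add_left card_biUnion_le _)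
  have hc3 : (({n | 1 ≤ n ∧ n ≤ x ∧ ¬ (Cons {p | p.Prime} H n ↔ Cons {b | b ∈ SZ k ∧ b₀ ≤ b} H n)} : Set ℕ).ncard : ℝ) ≤
      (({n | 1 ≤ n ∧ n ≤ x ∧ (∀ t ∈ H, (n + t).Prime) ∧ ¬ ∀ t ∈ H, n + t ∈ {b | b ∈ SZ k ∧ b₀ ≤ b}} : Set ℕ).ncard : ℝ) +
        ∑ y ∈ (range (M + 1)).filter (fun y => y ∉ H), (((Icc 1 x).filter (fun n => ∀ t ∈ insert y H, (n + t).Prime)).card : ℝ) := by
    exact_mod_cast hc2
  have h4 : ∑ y ∈ (range (M + 1)).filter (fun y => y ∉ H), (((Icc 1 x).filter (fun n => ∀ t ∈ insert y H, (n + t).Prime)).card : ℝ) ≤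
      ∑ y ∈ (range (M + 1)).filter (fun y => y ∉ H), C2 y * (x / (Real.log x) ^ ((H.card : ℝ) + 1 / 2)) := by
    refine sum_le_sum fun y hy => ?_
    rw [mem_filter] at hy
    refine (hb2 y x (le_trans (le_sup (f := x2) hy.1) e2)).trans ?_
    rw [mul_div_assoc]
    refine mul_le_mul_of_nonneg_left ?_ (hC2 y).le
    refine div_le_div_of_nonneg_left hx0 (Real.rpow_pos_of_pos hl _) ?_
    rw [card_insert_of_notMem hy.2, ← Real.rpow_natCast]
    refine Real.rpow_le_rpow_of_exponent_le e3 ?_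
    push_cast
    linarith
  have h5 : ∑ y ∈ (range (M + 1)).filter (fun y => y ∉ H), C2 y * (x / (Real.log x) ^ ((H.card : ℝ) + 1 / 2)) ≤
      (∑ y ∈ range (M + 1), C2 y) * (x / (Real.log x) ^ ((H.card : ℝ) + 1 / 2)) := by
    rw [sum_mul]
    refine sum_le_sum_of_subset_of_nonneg (filter_subset _ _) fun y _ _ => ?_
    have := (hC2 y).le
    have := Real.rpow_nonneg hl.le ((H.card : ℝ) + 1 / 2)
    positivity
  have e1' : (({n | 1 ≤ n ∧ n ≤ x ∧ (∀ t ∈ H, (n + t).Prime) ∧ ¬ ∀ t ∈ H, n + t ∈ {b | b ∈ SZ k ∧ b₀ ≤ b}} : Set ℕ).ncard : ℝ) ≤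
      C1 * (x / (Real.log x) ^ ((H.card : ℝ) + 1 / 2)) := e1
  rw [add_mul]
  linarith

end Pool.Agent.H38.BR
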